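import Mathlib
import Pool.Agent.Y668.TH.Space
import Pool.Agent.Y668.TH.Plane

/-!
# For which `k` and in which dimension is `H_k` realizable by axis-parallel boxes?
-/

set_option autoImplicit false

namespace Pool.Agent.Results.MP_a176d3_co.AllDimensions

open Pool.Agent.Y668.TH

/-- For `d ≥ 1` and `k ≥ 1` the hypergraph `H_k` of the rooted `k`-ary tree of depth `k - 1`
has a realization by points and axis-parallel boxes in `ℝ^d` if and only if `k = 1`, or `d = 2`
and `k ≤ 5`, or `d ≥ 3`. -/
theorem result (d k : ℕ) (hd : 1 ≤ d) (hk : 1 ≤ k) :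
    Realizable d k ↔ k = 1 ∨ (d = 2 ∧ k ≤ 5) ∨ 3 ≤ d := by
  constructor
  · intro h
    by_contra hn
    have h1 : k ≠ 1 := fun e => hn (Or.inl e)
    have h3 : ¬ 3 ≤ d := fun e => hn (Or.inr (Or.inr e))
    have h2 : d = 2 → 6 ≤ k := by
      intro e
      by_contra hk6
      exact hn (Or.inr (Or.inl ⟨e, by omega⟩))
    rcases (by omega : d = 1 ∨ d = 2) with rfl | rfl
    · exact not_line k (by omega) h
    · exact not_plane k (h2 rfl) h
  · rintro (rfl | ⟨rfl, h⟩ | h)
    · exact real_one d
    · exact real_plane k h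
    · exact real_space d k h

end Pool.Agent.Results.MP_a176d3_co.AllDimensions
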